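import Mathlib
set_option linter.style.longLine false
namespace Pool.Agent.Results.MP_537c7a_lc.No
open Set Cardinal Order Ordinal

/-- a P-ideal of countable subsets of `S` -/
def PIdeal {S : Type} (𝓘 : Set (Set S)) : Prop := (∀ X ∈ 𝓘, X.Countable) ∧ (∀ X, X.Finite → X ∈ 𝓘) ∧
  (∀ X ∈ 𝓘, ∀ Y ⊆ X, Y ∈ 𝓘) ∧ (∀ X ∈ 𝓘, ∀ Y ∈ 𝓘, X ∪ Y ∈ 𝓘) ∧
  ∀ X : ℕ → Set S, (∀ n, X n ∈ 𝓘) → ∃ Y ∈ 𝓘, ∀ n, (X n \ Y).Finite

/-- the P-ideal dichotomy -/
def PID : Prop := ∀ (S : Type) (𝓘 : Set (Set S)), PIdeal 𝓘 → (∃ A : Set S, ¬ A.Countable ∧ ∀ X ⊆ A, X.Countable → X ∈ 𝓘) ∨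
  ∃ T : ℕ → Set S, ⋃ n, T n = Set.univ ∧ ∀ n, ∀ X ⊆ T n, X ∈ 𝓘 → X.Finite

/-- breadth at most `n` -/
def Breadth (L : Type) [SemilatticeSup L] (n : ℕ) : Prop := ∀ (X : Finset L) (hX : X.Nonempty),
  ∃ Y ⊆ X, ∃ hY : Y.Nonempty, Y.card ≤ n ∧ Y.sup' hY id = X.sup' hX id

lemma tot {I : Type} (r : I → I → Prop) (h : ∀ x y, r x y ∨ r y x) {μ : Cardinal.{0}} (hμ : ℵ₀ ≤ μ)
    (s : ∀ y, #{x | r x y} ≤ μ) : #I ≤ succ μ := not_lt.1 fun k => by
  obtain ⟨S, -, hS⟩ := (le_mk_iff_exists_subset (c := succ μ) (s := (Set.univ : Set I))).1 (by simpa using k.le)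
  obtain ⟨z, hz⟩ : ∃ z, z ∉ ⋃ y : S, {x | r x y} := by_contra fun c => k.not_ge (by
    rw [← mk_univ, ← eq_univ_of_forall (not_exists_not.1 c)]
    exact (mk_iUnion_le _).trans ((mul_le_mul' hS.le (ciSup_le' fun y : S => (s y).trans (le_succ μ))).trans
      (mul_eq_self (hμ.trans (le_succ μ))).le))
  exact (lt_succ μ).not_ge (hS ▸ (mk_le_mk_of_subset fun y c =>
    (h y z).resolve_right fun d => hz (mem_iUnion.2 ⟨⟨y, c⟩, d⟩)).trans (s z))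

theorem result (pid : PID) (L : Type) [SemilatticeSup L] (hb : Breadth L 2) (hL : #L = ℵ_ (ω + 1)) :
    ∃ a : L, ℵ_ ω ≤ #(Iic a) := by
  classical
  by_contra! sm
  have B : ∀ x y z : L, ¬ z ≤ x ⊔ y → x ≤ z ⊔ y ∨ y ≤ z ⊔ x := fun x y z n => by
    obtain ⟨Y, a, b, c, d⟩ := hb {x, y, z} (by simp)
    have k : ∀ w, (∀ u ∈ Y, u ≤ w) → x ≤ w ∧ y ≤ w ∧ z ≤ w := fun w e => by
      simpa using d.ge.trans ((Finset.sup'_le_iff b id).2 e)
    have m : ∀ u ∈ Y, u = x ∨ u = y ∨ u = z := fun u e => by simpa using a e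
    by_contra! e
    have : ({x, y, z} : Finset L) ⊆ Y := by
      simp only [Finset.insert_subset_iff, Finset.singleton_subset_iff]
      refine ⟨by_contra fun f => e.1 (k _ fun u i => ?_).1, by_contra fun f => e.2 (k _ fun u i => ?_).2.1,
        by_contra fun f => n (k _ fun u i => ?_).2.2⟩ <;> rcases m u i with rfl | rfl | rfl <;> simp_all
    have := (Finset.card_le_card this).trans c
    rw [Finset.card_eq_three.2 ⟨x, y, z, by rintro rfl; simp at e, by rintro rfl; simp at e, by rintro rfl; simp at e, rfl⟩] at this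
    omega
  have lt : ∀ n : ℕ, ℵ_ n < ℵ_ ω := fun n => aleph_lt_aleph.2 (natCast_lt_omega0 n)
  have inf : ℵ₀ ≤ ℵ_ ω := aleph0_le_aleph _
  have sz : ∀ x : L, ∃ n : ℕ, #(Iic x) ≤ ℵ_ n := fun x => by
    have := sm x
    rw [aleph_limit isSuccLimit_omega0] at this
    obtain ⟨⟨i, a⟩, b⟩ := exists_lt_of_lt_ciSup' this
    obtain ⟨n, rfl⟩ := lt_omega0.1 a
    exact ⟨n, b.le⟩
  have big : ℵ_ ω < #L := hL ▸ aleph_lt_aleph.2 (lt_add_one _)
  have E : ∀ I : Set L, #I = ℵ_ ω → ∃ (a : L) (y : ℕ → L), (∀ n, y n ∈ I ∧ ℵ_ n < #(Iic (a ⊔ y n))) ∧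
      ∀ y ∈ I, ∀ z ∈ I, y ≤ a ⊔ z ∨ z ≤ a ⊔ y := fun I hI => by
    obtain ⟨a, ha⟩ : ∃ a, a ∉ ⋃ p : I × I, Iic (p.1.1 ⊔ p.2.1) := by_contra fun c => big.not_ge (by
      rw [← mk_univ, ← eq_univ_of_forall (not_exists_not.1 c)]
      exact (mk_iUnion_le _).trans ((mul_le_mul' (by simp [hI]) (ciSup_le' fun y => (sm _).le)).trans
        (mul_eq_self inf).le))
    have t := fun y z : I => B y z a fun c => ha (mem_iUnion.2 ⟨(y, z), c⟩)
    have : ∀ n : ℕ, ∃ y ∈ I, ℵ_ n < #(Iic (a ⊔ y)) := fun n => by_contra fun c => (lt (n + 1)).not_ge (by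
      rw [← hI, Nat.cast_add_one, ← succ_aleph]
      refine tot _ t (aleph0_le_aleph _) fun y => le_trans ?_ (not_lt.1 fun d => c ⟨y, y.2, d⟩)
      exact mk_le_of_injective (f := fun x => ⟨x.1.1, x.2⟩) fun _ _ e => Subtype.ext (Subtype.ext (congrArg (·.1) e)))
    choose y y1 y2 using this
    exact ⟨a, y, fun n => ⟨y1 n, y2 n⟩, fun y c z d => t ⟨y, c⟩ ⟨z, d⟩⟩
  have C : ∀ Y : Set L, #Y ≤ ℵ_ ω → ∃ b : ℕ → L, Monotone b ∧ ∀ x, ∃ n, Y ∩ Iic x ⊆ Iic (b n) := fun Y hY => by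
    obtain ⟨J, -, hJ⟩ := (le_mk_iff_exists_subset (s := (Set.univ : Set L))).1 (by simpa using big.le)
    obtain ⟨a, y, c, d⟩ := E (Y ∪ J) (le_antisymm ((mk_union_le _ _).trans (add_le_of_le inf hY hJ.le))
      (hJ ▸ mk_le_mk_of_subset subset_union_right))
    refine ⟨partialSups fun n => a ⊔ y n, OrderHom.monotone _, fun x => (sz (a ⊔ x)).imp fun n e z f =>
      le_trans ((d z (.inl f.1) _ (c n).1).resolve_right fun g => (c n).2.not_ge (le_trans (mk_le_mk_of_subset ?_) e))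
        (le_partialSups (fun n => a ⊔ y n) n)⟩
    exact Iic_subset_Iic.2 (sup_le le_sup_left (g.trans (sup_le_sup_left f.2 a)))
  refine (pid L {X | X.Countable ∧ ∀ x, (X ∩ Iic x).Finite} ⟨fun _ a => a.1, fun _ a => ⟨a.countable, fun _ => a.inter_of_left _⟩,
    fun _ a _ b => ⟨a.1.mono b, fun x => (a.2 x).subset (inter_subset_inter_left _ b)⟩, fun _ a _ b => ⟨a.1.union b.1,
      fun x => union_inter_distrib_right .. ▸ (a.2 x).union (b.2 x)⟩, fun X a => ?_⟩).elim (fun ⟨A, a, c⟩ => ?_) fun ⟨T, a, c⟩ => ?_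
  rotate_left
  · obtain ⟨A', d, e⟩ := (le_mk_iff_exists_subset (c := ℵ_ 1) (s := A)).1 (by
      rwa [← le_aleph0_iff_set_countable, not_le, ← succ_le_iff, succ_aleph0] at a)
    obtain ⟨b, -, f⟩ := C A' (e ▸ aleph_le_aleph.2 one_lt_omega0.le)
    obtain ⟨n, g⟩ : ∃ n, (A' ∩ Iic (b n)).Infinite := by_contra fun g => aleph0_lt_aleph_one.not_ge (e ▸
      le_aleph0_iff_set_countable.2 ((countable_iUnion fun n => (not_infinite.1 fun i => g ⟨n, i⟩).countable).mono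
        fun x i => let ⟨n, j⟩ := f x; mem_iUnion.2 ⟨n, mem_inter i (j (mem_inter i self_mem_Iic))⟩))
    let u := fun k => (g.natEmbedding _ k).1
    exact infinite_range_of_injective (f := u) (Subtype.val_injective.comp (g.natEmbedding _).injective)
      (((c _ (range_subset_iff.2 fun k => d (g.natEmbedding _ k).2.1) (countable_range u)).2 (b n)).subset
        fun x i => ⟨i, let ⟨k, j⟩ := i; j ▸ (g.natEmbedding _ k).2.2⟩)
  · obtain ⟨n, d⟩ : ∃ n, ℵ_ ω ≤ #(T n) := by_contra fun d => big.not_ge (by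
      rw [← mk_univ, ← a]
      exact (mk_iUnion_le _).trans ((mul_le_mul' (by simp) (ciSup_le' fun n => (not_le.1 fun e => d ⟨n, e⟩).le)).trans
        (mul_eq_self inf).le))
    obtain ⟨I, d, e⟩ := le_mk_iff_exists_subset.1 d
    obtain ⟨a, y, f, -⟩ := E I e
    have : Nonempty L := ⟨a⟩
    have g : ∀ x, {m | y m ≤ x}.Finite := fun x => let ⟨k, i⟩ := sz (a ⊔ x); (finite_Iio k).subset fun m j =>
      Nat.cast_lt.1 (aleph_lt_aleph.1 ((f m).2.trans_le ((mk_le_mk_of_subset (Iic_subset_Iic.2 (sup_le_sup_left j a))).trans i)))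
    obtain ⟨x, i⟩ := (c n (range y) (range_subset_iff.2 fun m => d (f m).1) ⟨countable_range y, fun x =>
      ((g x).image y).subset fun _ ⟨⟨m, i⟩, j⟩ => ⟨m, i.le.trans j, i⟩⟩).bddAbove
    exact infinite_univ ((g x).subset fun m _ => i ⟨m, rfl⟩)
  have ct : (⋃ n, X n).Countable := countable_iUnion fun n => (a n).1
  obtain ⟨b, c, d⟩ := C _ ((le_aleph0_iff_set_countable.2 ct).trans inf)
  refine ⟨⋃ n, X n \ Iic (b n), ⟨ct.mono (iUnion_mono fun _ => sdiff_subset), fun x => ?_⟩, fun n =>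
    ((a n).2 (b n)).subset fun x i => ⟨i.1, by_contra fun j => i.2 (mem_iUnion.2 ⟨n, i.1, j⟩)⟩⟩
  obtain ⟨n, e⟩ := d x
  refine ((finite_Iio n).biUnion fun k _ => (a k).2 x).subset fun z i => ?_
  obtain ⟨k, j⟩ := mem_iUnion.1 i.1
  exact mem_biUnion (not_le.1 fun l => j.2 ((e ⟨mem_iUnion.2 ⟨k, j.1⟩, i.2⟩).trans (c l))) ⟨j.1, i.2⟩

end Pool.Agent.Results.MP_537c7a_lc.No
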